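import Pool.Agent.FBR.Chg
import Pool.Agent.ISY.OsgC

/-!
# FBP/An: differentiable maps between finite dimensional complex spaces are analytic; criteria for analytic
manifolds and holomorphic maps
-/

set_option autoImplicit false

noncomputable section

open scoped Manifold ContDiff

namespace Pool.Agent.FBP

open Pool.Agent.FBR

section An

variable {E F : Type*} [NormedAddCommGroup E] [NormedSpace ℂ E] [FiniteDimensional ℂ E]
  [NormedAddCommGroup F] [NormedSpace ℂ F] [FiniteDimensional ℂ F]

theorem analytic_of_diff {U : Set E} (hU : IsOpen U) {f : E → F} (hf : ∀ x ∈ U, DifferentiableAt ℂ f x) :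
    AnalyticOnNhd ℂ f U := by
  set e : E ≃L[ℂ] (Fin (Module.finrank ℂ E) → ℂ) :=
    ContinuousLinearEquiv.ofFinrankEq (by rw [Module.finrank_fin_fun]) with he
  set e' : F ≃L[ℂ] (Fin (Module.finrank ℂ F) → ℂ) :=
    ContinuousLinearEquiv.ofFinrankEq (by rw [Module.finrank_fin_fun]) with he'
  have hU' : IsOpen (e.symm ⁻¹' U) := hU.preimage e.symm.continuous
  have hd : ∀ y ∈ e.symm ⁻¹' U, DifferentiableAt ℂ (fun y => e' (f (e.symm y))) y := by
    intro y hy
    have h1 : DifferentiableAt ℂ f (e.symm y) := hf _ hy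
    have h2 : DifferentiableAt ℂ (fun y => f (e.symm y)) y :=
      DifferentiableAt.comp (g := f) y h1 e.symm.differentiableAt
    exact DifferentiableAt.comp (g := e') y e'.differentiableAt h2
  have h := Pool.Agent.ISY.osg (Fin (Module.finrank ℂ E) → ℂ) (Fin (Module.finrank ℂ F) → ℂ)
    (e.symm ⁻¹' U) (fun y => e' (f (e.symm y))) hU'
    (fun y hy => (hd y hy).continuousAt.continuousWithinAt) (by
      intro x hx k
      have h4 : DifferentiableAt ℂ (fun t : ℂ => x + t • k) 0 := by fun_prop
      have h3 : DifferentiableAt ℂ (fun y => e' (f (e.symm y))) (x + (0 : ℂ) • k) := by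
        rw [zero_smul, add_zero]; exact hd x hx
      exact DifferentiableAt.comp (g := fun y => e' (f (e.symm y))) (0 : ℂ) h3 h4)
  intro x hx
  have hx' : e x ∈ e.symm ⁻¹' U := by simpa using hx
  have h1 : AnalyticAt ℂ (fun y => e' (f (e.symm y))) (e x) := h _ hx'
  have h2 : AnalyticAt ℂ (fun x => e' (f (e.symm (e x)))) x :=
    AnalyticAt.comp (g := fun y => e' (f (e.symm y))) (f := e) h1 (e.toContinuousLinearMap.analyticAt x)
  have h3 : AnalyticAt ℂ (fun x => e'.symm (e' (f (e.symm (e x))))) x :=
    AnalyticAt.comp (g := e'.symm) (f := fun x => e' (f (e.symm (e x))))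
      (e'.symm.toContinuousLinearMap.analyticAt _) h2
  simpa using h3

theorem contDiffOn_of_inf {U : Set E} (hU : IsOpen U) {f : E → F} (hf : ∀ x ∈ U, ContDiffAt ℂ ∞ f x) :
    ContDiffOn ℂ ω f U := by
  have h := analytic_of_diff hU fun x hx => (hf x hx).differentiableAt (by simp)
  exact h.contDiffOn hU.uniqueDiffOn

end An

section Glue

variable {H P : Type*} [NormedAddCommGroup H] [NormedSpace ℂ H] [FiniteDimensional ℂ H] [TopologicalSpace P]

/-- the charted space with the preferred charts `φ p` -/
def mkCS (φ : P → OpenPartialHomeomorph P H) (hφ : ∀ p, p ∈ (φ p).source) : ChartedSpace H P where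
  atlas := Set.range φ
  chartAt := φ
  mem_chart_source := hφ
  chart_mem_atlas := fun p => ⟨p, rfl⟩

theorem mkCS_manifold (φ : P → OpenPartialHomeomorph P H) (hφ : ∀ p, p ∈ (φ p).source)
    (h : ∀ p p', ∀ y ∈ (φ p).target, (φ p).symm y ∈ (φ p').source → ContDiffAt ℂ ∞ (φ p' ∘ (φ p).symm) y) :
    letI := mkCS φ hφ
    IsManifold 𝓘(ℂ, H) ω P := by
  letI := mkCS φ hφ
  refine isManifold_of_contDiffOn 𝓘(ℂ, H) ω P ?_
  rintro _ _ ⟨p, rfl⟩ ⟨p', rfl⟩
  simp only [modelWithCornersSelf_coe, modelWithCornersSelf_coe_symm, Function.comp_id, Function.id_comp,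
    Set.preimage_id, Set.range_id, Set.inter_univ]
  refine contDiffOn_of_inf ((φ p).symm.trans (φ p')).open_source ?_
  intro y hy
  rw [OpenPartialHomeomorph.trans_source] at hy
  exact h p p' y hy.1 hy.2

end Glue

section Maps

variable {E X : Type*} [NormedAddCommGroup E] [NormedSpace ℂ E] [FiniteDimensional ℂ E]
  [TopologicalSpace X] [ChartedSpace E X] [IsManifold 𝓘(ℂ, E) ω X]
  {F B : Type*} [NormedAddCommGroup F] [NormedSpace ℂ F] [FiniteDimensional ℂ F] [TopologicalSpace B]
  [ChartedSpace F B] [IsManifold 𝓘(ℂ, F) ω B]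

theorem contMDiff_of_hol {g : X → B} (hg : ∀ p : X, ∀ y ∈ (chartAt E p).target, Hol F (g ∘ (chartAt E p).symm) y) :
    ContMDiff 𝓘(ℂ, E) 𝓘(ℂ, F) ω g := by
  have hc : Continuous g := by
    rw [continuous_iff_continuousAt]
    intro x
    have h1 := (hg x _ (mem_chart_target E x)).1
    have h2 : ContinuousAt ((g ∘ (chartAt E x).symm) ∘ chartAt E x) x :=
      ContinuousAt.comp h1 ((chartAt E x).continuousAt (mem_chart_source E x))
    refine h2.congr ?_
    filter_upwards [(chartAt E x).open_source.mem_nhds (mem_chart_source E x)] with z hz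
    show g ((chartAt E x).symm (chartAt E x z)) = g z
    rw [(chartAt E x).left_inv hz]
  rw [contMDiff_iff]
  refine ⟨hc, fun x y => ?_⟩
  simp only [mfld_simps, extChartAt, modelWithCornersSelf_coe]
  refine contDiffOn_of_inf ?_ ?_
  · have := (chartAt E x).symm.continuousOn_toFun.isOpen_inter_preimage (chartAt E x).symm.open_source
      ((chartAt F y).open_source.preimage hc)
    simpa using this
  · intro z hz
    have h1 := hg x z hz.1
    have h2 : (g ∘ (chartAt E x).symm) z ∈ (chartAt F y).source := hz.2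
    have h3 := (hol_iff h1.1 h2).1 h1
    exact h3

/-- the derivative of a map in terms of the derivative of its composition with the preferred chart -/
theorem dmap_par (g : X → B) (x : X) :
    dmap E F g x = dvec F (g ∘ (chartAt E x).symm) (chartAt E x x) := by
  unfold dmap dvec
  have h : (g ∘ (chartAt E x).symm) (chartAt E x x) = g x := by
    show g ((chartAt E x).symm (chartAt E x x)) = g x
    rw [(chartAt E x).left_inv (mem_chart_source E x)]
  rw [h]

end Maps

end Pool.Agent.FBP
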