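import Mathlib

/-!
# FBP/Top: the fibre product of two maps, topology
-/

set_option autoImplicit false

open Set Topology

namespace Pool.Agent.FBP

variable {X B Z : Type*}

/-- the fibre product `{(x, z) : π x = f z}` -/
def FP (π : X → B) (f : Z → B) : Type _ := {q : X × Z // π q.1 = f q.2}

variable {π : X → B} {f : Z → B}

/-- the projections -/
def FP.fst (p : FP π f) : X := p.1.1
def FP.snd (p : FP π f) : Z := p.1.2

theorem FP.eq (p : FP π f) : π p.fst = f p.snd := p.2

theorem FP.ext {p p' : FP π f} (h1 : p.fst = p'.fst) (h2 : p.snd = p'.snd) : p = p' :=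
  Subtype.ext (Prod.ext h1 h2)

/-- the point `(x, z)` -/
def FP.mk (x : X) (z : Z) (h : π x = f z) : FP π f := ⟨(x, z), h⟩

@[simp] theorem FP.fst_mk (x : X) (z : Z) (h : π x = f z) : (FP.mk x z h : FP π f).fst = x := rfl
@[simp] theorem FP.snd_mk (x : X) (z : Z) (h : π x = f z) : (FP.mk x z h : FP π f).snd = z := rfl

variable [TopologicalSpace X] [TopologicalSpace B] [TopologicalSpace Z]

instance : TopologicalSpace (FP π f) := instTopologicalSpaceSubtype

theorem FP.continuous_fst : Continuous (FP.fst : FP π f → X) :=
  _root_.continuous_fst.comp (continuous_subtype_val (p := fun q : X × Z => π q.1 = f q.2))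

theorem FP.continuous_snd : Continuous (FP.snd : FP π f → Z) :=
  _root_.continuous_snd.comp (continuous_subtype_val (p := fun q : X × Z => π q.1 = f q.2))

/-- continuity of a map into the fibre product -/
theorem FP.continuousAt_iff {T : Type*} [TopologicalSpace T] {g : T → FP π f} {t : T} :
    ContinuousAt g t ↔ ContinuousAt (fun s => (g s).fst) t ∧ ContinuousAt (fun s => (g s).snd) t := by
  constructor
  · intro h
    exact ⟨FP.continuous_fst.continuousAt.comp h, FP.continuous_snd.continuousAt.comp h⟩
  · rintro ⟨h1, h2⟩
    exact (Topology.IsInducing.subtypeVal (t := {q : X × Z | π q.1 = f q.2})).continuousAt_iff.2 (h1.prodMk h2)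

instance [T2Space X] [T2Space Z] : T2Space (FP π f) := inferInstanceAs (T2Space {q : X × Z // π q.1 = f q.2})

theorem FP.compact [CompactSpace X] [CompactSpace Z] [T2Space B] (hπ : Continuous π) (hf : Continuous f) :
    CompactSpace (FP π f) := by
  have h : IsClosed {q : X × Z | π q.1 = f q.2} :=
    isClosed_eq (hπ.comp _root_.continuous_fst) (hf.comp _root_.continuous_snd)
  exact isCompact_iff_compactSpace.1 h.isCompact

theorem FP.connected [CompactSpace X] [CompactSpace Z] [T2Space B] [T2Space Z] [ConnectedSpace Z]
    (hπ : Continuous π) (hf : Continuous f) (hc : ∀ b, IsConnected (π ⁻¹' {b})) :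
    ConnectedSpace (FP π f) := by
  haveI := FP.compact (π := π) (f := f) hπ hf
  have hcl : IsClosedMap (FP.snd : FP π f → Z) := FP.continuous_snd.isClosedMap
  have hs : Function.Surjective (FP.snd : FP π f → Z) := by
    intro z
    obtain ⟨x, hx⟩ := (hc (f z)).nonempty
    exact ⟨FP.mk x z hx, rfl⟩
  have hfib : ∀ z, IsConnected ((FP.snd : FP π f → Z) ⁻¹' {z}) := by
    intro z
    have h1 : (FP.snd : FP π f → Z) ⁻¹' {z} =
        Set.range fun x : π ⁻¹' {f z} => FP.mk (f := f) x.1 z x.2 := by
      ext p
      constructor
      · intro hp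
        have hp' : p.snd = z := hp
        refine ⟨⟨p.fst, ?_⟩, ?_⟩
        · show π p.fst = f z
          rw [p.eq, hp']
        · exact FP.ext rfl hp'.symm
      · rintro ⟨x, rfl⟩
        rfl
    rw [h1]
    haveI : ConnectedSpace (π ⁻¹' {f z}) := isConnected_iff_connectedSpace.1 (hc (f z))
    apply isConnected_range
    rw [continuous_iff_continuousAt]
    intro x
    rw [FP.continuousAt_iff]
    exact ⟨continuous_subtype_val.continuousAt, continuousAt_const⟩
  have hq := (hcl.isQuotientMap FP.continuous_snd hs).isCoinducing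
  have h := hq.isConnected_preimage_of_isClosed hfib isClosed_univ (connectedSpace_iff_univ.1 inferInstance)
  rw [Set.preimage_univ] at h
  exact connectedSpace_iff_univ.2 h

end Pool.Agent.FBP
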