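import Pool.Agent.FBP.An
import Pool.Agent.FBP.Top
import Pool.Agent.FBN.Prod

/-!
# FBP/Chart: charts of the fibre product
-/

set_option autoImplicit false

noncomputable section

open scoped Manifold ContDiff Classical

namespace Pool.Agent.FBP

open Pool.Agent.FBR

variable {E X : Type*} [NormedAddCommGroup E] [NormedSpace ℂ E] [FiniteDimensional ℂ E]
  [TopologicalSpace X] [ChartedSpace E X] [IsManifold 𝓘(ℂ, E) ω X]
  {F B : Type*} [NormedAddCommGroup F] [NormedSpace ℂ F] [FiniteDimensional ℂ F] [TopologicalSpace B]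
  [ChartedSpace F B] [IsManifold 𝓘(ℂ, F) ω B]
  {G Z : Type*} [NormedAddCommGroup G] [NormedSpace ℂ G] [FiniteDimensional ℂ G] [TopologicalSpace Z]
  [ChartedSpace G Z] [IsManifold 𝓘(ℂ, G) ω Z] {π : X → B} {f : Z → B} {m : ℕ}

/-! ### The inverse of a product chart -/

/-- the inverse of the product chart -/
def inv (Q : FBN.PC E F π m) : X → F × (Fin m → ℂ) := Function.invFunOn Q.Ψ Q.O

theorem inv_left (Q : FBN.PC E F π m) {q : F × (Fin m → ℂ)} (hq : q ∈ Q.O) : inv Q (Q.Ψ q) = q :=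
  Q.inj.leftInvOn_invFunOn hq

theorem inv_hol (Q : FBN.PC E F π m) {H : Type*} [NormedAddCommGroup H] [NormedSpace ℂ H] {g : H → X} {y : H}
    (hg : Hol E g y) (hy : g y ∈ Q.Ψ '' Q.O) : ContDiffAt ℂ ∞ (inv Q ∘ g) y := by
  obtain ⟨q0, hq0, hq1⟩ := hy
  have hp : Q.Ψ q0 ∈ (chartAt E (g y)).source := by rw [hq1]; exact mem_chart_source E (g y)
  obtain ⟨W, k, hW, h1, -, h3, h4⟩ := hol_inv (E := E) Q.isOpen Q.hol hq0 (Q.bij q0 hq0) hp
  have h5 : chartAt E (g y) (g y) ∈ W := by rw [← hq1] at *; exact h1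
  have h6 : ContDiffAt ℂ ∞ (k ∘ (chartAt E (g y) ∘ g)) y :=
    ContDiffAt.comp y (h4 _ h5).2.2 hg.2
  refine h6.congr_of_eventuallyEq ?_
  have h7 : ∀ᶠ z in nhds y, (chartAt E (g y) ∘ g) z ∈ W := hg.2.continuousAt.eventually (hW.mem_nhds h5)
  have h8 : ∀ᶠ z in nhds y, g z ∈ (chartAt E (g y)).source :=
    hg.1.eventually ((chartAt E (g y)).open_source.mem_nhds (mem_chart_source E (g y)))
  filter_upwards [h7, h8] with z hz hz'
  obtain ⟨h9, h10, -⟩ := h4 _ hz
  show inv Q (g z) = k (chartAt E (g y) (g z))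
  have h11 : Q.Ψ (k (chartAt E (g y) (g z))) = g z := by
    have := h10
    simp only [Function.comp] at this
    rw [this, (chartAt E (g y)).left_inv hz']
  rw [← h11, inv_left Q]
  · rw [h11]
  · exact h9

/-! ### The parametrization of the first component -/

variable (f) in
/-- the first component of the point of the fibre product with the coordinates `q` -/
def par (Q : FBN.PC E F π m) (z0 : Z) (q : G × (Fin m → ℂ)) : X :=
  Q.Ψ (chartAt F Q.c (f ((chartAt G z0).symm q.1)), q.2)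

variable (f) in
/-- the domain of the parametrization -/
def dom (Q : FBN.PC E F π m) (z0 : Z) : Set (G × (Fin m → ℂ)) :=
  {q | q.1 ∈ (chartAt G z0).target ∧ f ((chartAt G z0).symm q.1) ∈ (chartAt F Q.c).source ∧
    (chartAt F Q.c (f ((chartAt G z0).symm q.1)), q.2) ∈ Q.O}

theorem dom_open (hf : ContMDiff 𝓘(ℂ, G) 𝓘(ℂ, F) ω f) (Q : FBN.PC E F π m) (z0 : Z) :
    IsOpen (dom f Q z0 : Set (G × (Fin m → ℂ))) := by
  have h1 : IsOpen {q : G × (Fin m → ℂ) | q.1 ∈ (chartAt G z0).target} :=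
    (chartAt G z0).open_target.preimage continuous_fst
  have h2 : ContinuousOn (fun q : G × (Fin m → ℂ) => f ((chartAt G z0).symm q.1))
      {q | q.1 ∈ (chartAt G z0).target} :=
    hf.continuous.comp_continuousOn
      ((chartAt G z0).continuousOn_symm.comp continuous_fst.continuousOn fun q hq => hq)
  have h3 := h2.isOpen_inter_preimage h1 (chartAt F Q.c).open_source
  have h4 : ContinuousOn (fun q : G × (Fin m → ℂ) => (chartAt F Q.c (f ((chartAt G z0).symm q.1)), q.2))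
      ({q | q.1 ∈ (chartAt G z0).target} ∩
        (fun q : G × (Fin m → ℂ) => f ((chartAt G z0).symm q.1)) ⁻¹' (chartAt F Q.c).source) := by
    refine ContinuousOn.prodMk ?_ continuous_snd.continuousOn
    exact (chartAt F Q.c).continuousOn.comp (h2.mono Set.inter_subset_left) fun q hq => hq.2
  have h5 := h4.isOpen_inter_preimage h3 Q.isOpen
  convert h5 using 1
  ext q
  simp only [dom, Set.mem_setOf_eq, Set.mem_inter_iff, Set.mem_preimage]
  tauto

/-- the coordinates in the base -/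
theorem base_hol (hf : ContMDiff 𝓘(ℂ, G) 𝓘(ℂ, F) ω f) (Q : FBN.PC E F π m) (z0 : Z) {q : G × (Fin m → ℂ)}
    (hq : q ∈ dom f Q z0) :
    ContDiffAt ℂ ∞ (fun q : G × (Fin m → ℂ) => (chartAt F Q.c (f ((chartAt G z0).symm q.1)), q.2)) q := by
  have h1 : Hol F (f ∘ (chartAt G z0).symm) q.1 := holo_comp hf (hol_symm hq.1)
  have h2 : ContDiffAt ℂ ∞ (chartAt F Q.c ∘ (f ∘ (chartAt G z0).symm)) q.1 := (hol_iff h1.1 hq.2.1).1 h1
  have h3 : ContDiffAt ℂ ∞ (fun q : G × (Fin m → ℂ) => (chartAt F Q.c ∘ (f ∘ (chartAt G z0).symm)) q.1) q :=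
    ContDiffAt.comp (g := chartAt F Q.c ∘ (f ∘ (chartAt G z0).symm)) q h2 contDiffAt_fst
  exact h3.prodMk contDiffAt_snd

theorem par_hol (hf : ContMDiff 𝓘(ℂ, G) 𝓘(ℂ, F) ω f) (Q : FBN.PC E F π m) (z0 : Z) {q : G × (Fin m → ℂ)}
    (hq : q ∈ dom f Q z0) : Hol E (par f Q z0) q :=
  Hol.comp (f := Q.Ψ) (Q.hol _ hq.2.2) (base_hol hf Q z0 hq)

theorem par_eq (Q : FBN.PC E F π m) (z0 : Z) {q : G × (Fin m → ℂ)} (hq : q ∈ dom f Q z0) :
    π (par f Q z0 q) = f ((chartAt G z0).symm q.1) := by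
  unfold par
  rw [Q.proj _ hq.2.2]
  exact (chartAt F Q.c).left_inv hq.2.1

/-! ### The charts -/

/-- The chart of the fibre product given by the product chart `Q` and the chart at `z0`. -/
def chart (hf : ContMDiff 𝓘(ℂ, G) 𝓘(ℂ, F) ω f) (Q : FBN.PC E F π m) (z0 : Z) (p0 : FP π f) :
    OpenPartialHomeomorph (FP π f) (G × (Fin m → ℂ)) where
  toFun p := (chartAt G z0 p.snd, (inv Q p.fst).2)
  invFun q := if h : q ∈ dom f Q z0 then FP.mk (par f Q z0 q) ((chartAt G z0).symm q.1) (par_eq Q z0 h) else p0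
  source := {p | p.snd ∈ (chartAt G z0).source ∧ p.fst ∈ Q.Ψ '' Q.O}
  target := dom f Q z0
  map_source' := by
    rintro p ⟨h1, ⟨q, hq, hqp⟩⟩
    have hb := FBN.PC.base Q hq
    have h2 : (chartAt G z0).symm (chartAt G z0 p.snd) = p.snd := (chartAt G z0).left_inv h1
    refine ⟨(chartAt G z0).map_source h1, ?_, ?_⟩
    · show f ((chartAt G z0).symm (chartAt G z0 p.snd)) ∈ _
      rw [h2, ← p.eq, ← hqp]
      exact hb.1
    · show (chartAt F Q.c (f ((chartAt G z0).symm (chartAt G z0 p.snd))), (inv Q p.fst).2) ∈ Q.O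
      rw [h2, ← p.eq, ← hqp, hb.2, inv_left Q hq]
      exact hq
  map_target' := by
    intro q hq
    simp only [dif_pos hq]
    exact ⟨(chartAt G z0).map_target hq.1, ⟨_, hq.2.2, rfl⟩⟩
  left_inv' := by
    rintro p ⟨h1, ⟨q, hq, hqp⟩⟩
    have hb := FBN.PC.base Q hq
    have h2 : (chartAt G z0).symm (chartAt G z0 p.snd) = p.snd := (chartAt G z0).left_inv h1
    have h3 : (chartAt F Q.c (f ((chartAt G z0).symm (chartAt G z0 p.snd))), (inv Q p.fst).2) = q := by
      rw [h2, ← p.eq, ← hqp, hb.2, inv_left Q hq]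
    have hd : (chartAt G z0 p.snd, (inv Q p.fst).2) ∈ dom f Q z0 := by
      refine ⟨(chartAt G z0).map_source h1, ?_, ?_⟩
      · show f ((chartAt G z0).symm (chartAt G z0 p.snd)) ∈ _
        rw [h2, ← p.eq, ← hqp]
        exact hb.1
      · rw [h3]
        exact hq
    simp only [dif_pos hd]
    apply FP.ext
    · show par f Q z0 (chartAt G z0 p.snd, (inv Q p.fst).2) = p.fst
      unfold par
      simp only
      rw [h3, hqp]
    · exact h2
  right_inv' := by
    intro q hq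
    simp only [dif_pos hq]
    refine Prod.ext ?_ ?_
    · exact (chartAt G z0).right_inv hq.1
    · show (inv Q (par f Q z0 q)).2 = q.2
      unfold par
      rw [inv_left Q hq.2.2]
  open_source := by
    have h1 : IsOpen (Q.Ψ '' Q.O) := FBN.PC.isOpen_im Q Q.isOpen le_rfl
    exact ((chartAt G z0).open_source.preimage FP.continuous_snd).inter (h1.preimage FP.continuous_fst)
  open_target := dom_open hf Q z0
  continuousOn_toFun := by
    rintro p ⟨h1, h2⟩
    refine ContinuousWithinAt.prodMk ?_ ?_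
    · exact (((chartAt G z0).continuousAt h1).comp FP.continuous_snd.continuousAt).continuousWithinAt
    · have h3 : ContDiffAt ℂ ∞ (inv Q ∘ (chartAt E p.fst).symm) (chartAt E p.fst p.fst) := by
        apply inv_hol Q (hol_symm (mem_chart_target E p.fst))
        rwa [(chartAt E p.fst).left_inv (mem_chart_source E p.fst)]
      have h4 : ContinuousAt (inv Q) p.fst := by
        have h5 : ContinuousAt ((inv Q ∘ (chartAt E p.fst).symm) ∘ chartAt E p.fst) p.fst :=
          ContinuousAt.comp h3.continuousAt ((chartAt E p.fst).continuousAt (mem_chart_source E p.fst))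
        refine h5.congr ?_
        filter_upwards [(chartAt E p.fst).open_source.mem_nhds (mem_chart_source E p.fst)] with z hz
        show inv Q ((chartAt E p.fst).symm (chartAt E p.fst z)) = inv Q z
        rw [(chartAt E p.fst).left_inv hz]
      have h6 : ContinuousAt (inv Q ∘ FP.fst) p := ContinuousAt.comp h4 FP.continuous_fst.continuousAt
      exact (continuous_snd.continuousAt.comp h6).continuousWithinAt
  continuousOn_invFun := by
    intro q hq
    apply ContinuousAt.continuousWithinAt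
    have hev : ∀ᶠ q' in nhds q, q' ∈ dom f Q z0 := (dom_open hf Q z0).mem_nhds hq
    rw [FP.continuousAt_iff]
    constructor
    · refine (par_hol hf Q z0 hq).1.congr ?_
      filter_upwards [hev] with q' hq'
      simp only [dif_pos hq', FP.fst_mk]
    · have h1 : ContinuousAt (fun q : G × (Fin m → ℂ) => (chartAt G z0).symm q.1) q :=
        ContinuousAt.comp (g := (chartAt G z0).symm) ((chartAt G z0).continuousAt_symm hq.1)
          continuous_fst.continuousAt
      refine h1.congr ?_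
      filter_upwards [hev] with q' hq'
      simp only [dif_pos hq', FP.snd_mk]

theorem chart_apply (hf : ContMDiff 𝓘(ℂ, G) 𝓘(ℂ, F) ω f) (Q : FBN.PC E F π m) (z0 : Z) (p0 p : FP π f) :
    chart hf Q z0 p0 p = (chartAt G z0 p.snd, (inv Q p.fst).2) := rfl

theorem chart_symm_fst (hf : ContMDiff 𝓘(ℂ, G) 𝓘(ℂ, F) ω f) (Q : FBN.PC E F π m) (z0 : Z) (p0 : FP π f)
    {q : G × (Fin m → ℂ)} (hq : q ∈ dom f Q z0) : ((chart hf Q z0 p0).symm q).fst = par f Q z0 q := by
  show FP.fst (if h : q ∈ dom f Q z0 then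
    FP.mk (par f Q z0 q) ((chartAt G z0).symm q.1) (par_eq Q z0 h) else p0) = par f Q z0 q
  rw [dif_pos hq]
  rfl

theorem chart_symm_snd (hf : ContMDiff 𝓘(ℂ, G) 𝓘(ℂ, F) ω f) (Q : FBN.PC E F π m) (z0 : Z) (p0 : FP π f)
    {q : G × (Fin m → ℂ)} (hq : q ∈ dom f Q z0) :
    ((chart hf Q z0 p0).symm q).snd = (chartAt G z0).symm q.1 := by
  show FP.snd (if h : q ∈ dom f Q z0 then
    FP.mk (par f Q z0 q) ((chartAt G z0).symm q.1) (par_eq Q z0 h) else p0) = (chartAt G z0).symm q.1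
  rw [dif_pos hq]
  rfl

theorem mem_src (hf : ContMDiff 𝓘(ℂ, G) 𝓘(ℂ, F) ω f) (Q : FBN.PC E F π m) (z0 : Z) (p0 p : FP π f) :
    p ∈ (chart hf Q z0 p0).source ↔ p.snd ∈ (chartAt G z0).source ∧ p.fst ∈ Q.Ψ '' Q.O := Iff.rfl

/-- the transition maps are holomorphic -/
theorem chart_trans (hf : ContMDiff 𝓘(ℂ, G) 𝓘(ℂ, F) ω f) (Q Q' : FBN.PC E F π m) (z0 z1 : Z) (p0 p1 : FP π f)
    {q : G × (Fin m → ℂ)} (hq : q ∈ dom f Q z0)
    (hq' : (chart hf Q z0 p0).symm q ∈ (chart hf Q' z1 p1).source) :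
    ContDiffAt ℂ ∞ (chart hf Q' z1 p1 ∘ (chart hf Q z0 p0).symm) q := by
  rw [mem_src, chart_symm_fst hf Q z0 p0 hq, chart_symm_snd hf Q z0 p0 hq] at hq'
  have h1 : ContDiffAt ℂ ∞ (inv Q' ∘ par f Q z0) q := inv_hol Q' (par_hol hf Q z0 hq) hq'.2
  have h2 : ContDiffAt ℂ ∞ (chartAt G z1 ∘ (chartAt G z0).symm) q.1 := by
    have h3 := hol_symm (E := G) (p := z0) hq.1
    exact (hol_iff h3.1 hq'.1).1 h3
  have h3 : ContDiffAt ℂ ∞ (fun q : G × (Fin m → ℂ) => (chartAt G z1 ∘ (chartAt G z0).symm) q.1) q :=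
    ContDiffAt.comp (g := chartAt G z1 ∘ (chartAt G z0).symm) q h2 contDiffAt_fst
  have h4 : ContDiffAt ℂ ∞ (fun q : G × (Fin m → ℂ) => ((chartAt G z1 ∘ (chartAt G z0).symm) q.1,
      ((inv Q' ∘ par f Q z0) q).2)) q := h3.prodMk (ContDiffAt.comp q contDiffAt_snd h1)
  refine h4.congr_of_eventuallyEq ?_
  filter_upwards [(dom_open hf Q z0).mem_nhds hq] with q' hq''
  show chart hf Q' z1 p1 ((chart hf Q z0 p0).symm q') = _
  rw [chart_apply, chart_symm_fst hf Q z0 p0 hq'', chart_symm_snd hf Q z0 p0 hq'']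
  rfl

end Pool.Agent.FBP
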