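import Pool.Agent.FBP.Chart
import Pool.Agent.FBR.Cpt

/-!
# FBP/Main: the fibre product of a submersion and a holomorphic map is a compact connected complex manifold
-/

set_option autoImplicit false

noncomputable section

open scoped Manifold ContDiff Classical

namespace Pool.Agent.FBP

open Pool.Agent.FBR

universe u

section Loc

variable {E X : Type*} [NormedAddCommGroup E] [NormedSpace ℂ E] [FiniteDimensional ℂ E]
  [TopologicalSpace X] [ChartedSpace E X] [IsManifold 𝓘(ℂ, E) ω X]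
  {F B : Type*} [NormedAddCommGroup F] [NormedSpace ℂ F] [FiniteDimensional ℂ F] [TopologicalSpace B]
  [ChartedSpace F B] [IsManifold 𝓘(ℂ, F) ω B]
  {G Z : Type*} [NormedAddCommGroup G] [NormedSpace ℂ G] [FiniteDimensional ℂ G] [TopologicalSpace Z]
  [ChartedSpace G Z] [IsManifold 𝓘(ℂ, G) ω Z] {π : X → B} {f : Z → B} {m : ℕ}

/-- the product chart at a point -/
def pcAt (h : FBN.Fibn E F π m) (x : X) : FBN.PC E F π m := (FBN.exists_PC h x).choose

theorem pcAt_mem (h : FBN.Fibn E F π m) (x : X) : x ∈ (pcAt h x).Ψ '' (pcAt h x).O :=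
  (FBN.exists_PC h x).choose_spec.2

/-- the preferred charts of the fibre product -/
def ph (h : FBN.Fibn E F π m) (hf : ContMDiff 𝓘(ℂ, G) 𝓘(ℂ, F) ω f) (p : FP π f) :
    OpenPartialHomeomorph (FP π f) (G × (Fin m → ℂ)) := chart hf (pcAt h p.fst) p.snd p

theorem ph_mem (h : FBN.Fibn E F π m) (hf : ContMDiff 𝓘(ℂ, G) 𝓘(ℂ, F) ω f) (p : FP π f) :
    p ∈ (ph h hf p).source := ⟨_root_.mem_chart_source G p.snd, pcAt_mem h p.fst⟩

/-- the fibre product as a charted space -/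
@[reducible] def cs (h : FBN.Fibn E F π m) (hf : ContMDiff 𝓘(ℂ, G) 𝓘(ℂ, F) ω f) :
    ChartedSpace (G × (Fin m → ℂ)) (FP π f) := mkCS (ph h hf) (ph_mem h hf)

theorem man (h : FBN.Fibn E F π m) (hf : ContMDiff 𝓘(ℂ, G) 𝓘(ℂ, F) ω f) :
    @IsManifold ℂ _ (G × (Fin m → ℂ)) _ _ (G × (Fin m → ℂ)) _ 𝓘(ℂ, G × (Fin m → ℂ)) ω (FP π f) _ (cs h hf) :=
  mkCS_manifold (ph h hf) (ph_mem h hf) fun p p' _ hy hy' =>
    chart_trans hf (pcAt h p.fst) (pcAt h p'.fst) p.snd p'.snd p p' hy hy'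

/-- the first projection in a chart -/
theorem fst_hol (h : FBN.Fibn E F π m) (hf : ContMDiff 𝓘(ℂ, G) 𝓘(ℂ, F) ω f) (p : FP π f)
    {y : G × (Fin m → ℂ)} (hy : y ∈ (ph h hf p).target) :
    Hol E (FP.fst ∘ (ph h hf p).symm) y ∧
      (FP.fst ∘ (ph h hf p).symm) =ᶠ[nhds y] par f (pcAt h p.fst) p.snd := by
  have hev : (FP.fst ∘ (ph h hf p).symm) =ᶠ[nhds y] par f (pcAt h p.fst) p.snd := by
    filter_upwards [(dom_open hf (pcAt h p.fst) p.snd).mem_nhds hy] with y' hy'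
    exact chart_symm_fst hf _ _ _ hy'
  have h1 : Hol E (par f (pcAt h p.fst) p.snd) y := par_hol hf _ _ hy
  refine ⟨?_, hev⟩
  have h2 : (FP.fst ∘ (ph h hf p).symm) y = par f (pcAt h p.fst) p.snd y := hev.self_of_nhds
  refine ⟨h1.1.congr hev.symm, ?_⟩
  rw [h2]
  refine h1.2.congr_of_eventuallyEq ?_
  filter_upwards [hev] with y' hy'
  simp only [Function.comp] at hy' ⊢
  rw [hy']

theorem snd_hol (h : FBN.Fibn E F π m) (hf : ContMDiff 𝓘(ℂ, G) 𝓘(ℂ, F) ω f) (p : FP π f)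
    {y : G × (Fin m → ℂ)} (hy : y ∈ (ph h hf p).target) :
    Hol G (FP.snd ∘ (ph h hf p).symm) y ∧
      (FP.snd ∘ (ph h hf p).symm) =ᶠ[nhds y] fun q => (chartAt G p.snd).symm q.1 := by
  have hev : (FP.snd ∘ (ph h hf p).symm) =ᶠ[nhds y] fun q => (chartAt G p.snd).symm q.1 := by
    filter_upwards [(dom_open hf (pcAt h p.fst) p.snd).mem_nhds hy] with y' hy'
    exact chart_symm_snd hf _ _ _ hy'
  have h1 : Hol G (fun q : G × (Fin m → ℂ) => (chartAt G p.snd).symm q.1) y :=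
    Hol.comp (f := (chartAt G p.snd).symm) (hol_symm hy.1) contDiffAt_fst
  refine ⟨?_, hev⟩
  have h2 : (FP.snd ∘ (ph h hf p).symm) y = (chartAt G p.snd).symm y.1 := hev.self_of_nhds
  refine ⟨h1.1.congr hev.symm, ?_⟩
  rw [h2]
  refine h1.2.congr_of_eventuallyEq ?_
  filter_upwards [hev] with y' hy'
  simp only [Function.comp] at hy' ⊢
  rw [hy']

omit [FiniteDimensional ℂ E] [IsManifold 𝓘(ℂ, E) ω X] in
theorem dvec_congr {H : Type*} [NormedAddCommGroup H] [NormedSpace ℝ H] {g g' : H → X} {q : H}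
    (h : g =ᶠ[nhds q] g') : dvec E g q = dvec E g' q := by
  unfold dvec
  rw [h.self_of_nhds]
  refine Filter.EventuallyEq.fderiv_eq ?_
  filter_upwards [h] with z hz
  simp only [Function.comp]
  rw [hz]

/-- the two projections together are an immersion -/
theorem inj_loc (h : FBN.Fibn E F π m) (hf : ContMDiff 𝓘(ℂ, G) 𝓘(ℂ, F) ω f) (p : FP π f)
    {y : G × (Fin m → ℂ)} (hy : y ∈ (ph h hf p).target) (v : G × (Fin m → ℂ))
    (h1 : dvec E (FP.fst ∘ (ph h hf p).symm) y v = 0) (h2 : dvec G (FP.snd ∘ (ph h hf p).symm) y v = 0) :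
    v = 0 := by
  rw [dvec_congr (fst_hol h hf p hy).2] at h1
  rw [dvec_congr (snd_hol h hf p hy).2] at h2
  have h3 : v.1 = 0 := by
    have h4 : dvec G ((chartAt G p.snd).symm ∘ (Prod.fst : G × (Fin m → ℂ) → G)) y =
        (dvec G (chartAt G p.snd).symm y.1).comp (fderiv ℝ (Prod.fst : G × (Fin m → ℂ) → G) y) :=
      dvec_comp (f := (chartAt G p.snd).symm) (k := (Prod.fst : G × (Fin m → ℂ) → G)) (q := y)
        (hol_symm hy.1).sm differentiableAt_fst
    have h5 : dvec G ((chartAt G p.snd).symm ∘ (Prod.fst : G × (Fin m → ℂ) → G)) y v = 0 := h2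
    rw [h4, fderiv_fst, ContinuousLinearMap.comp_apply] at h5
    have h6 := (dvec_symm_bij hy.1).1
    exact h6 (h5.trans (map_zero _).symm)
  have h4 : v.2 = 0 := by
    set Q := pcAt h p.fst with hQ
    set k : G × (Fin m → ℂ) → F × (Fin m → ℂ) :=
      fun q => (chartAt F Q.c (f ((chartAt G p.snd).symm q.1)), q.2) with hk
    have hkd : DifferentiableAt ℝ k y :=
      ((base_hol hf Q p.snd hy).differentiableAt (by simp)).restrictScalars ℝ
    have h5 : dvec E (Q.Ψ ∘ k) y = (dvec E Q.Ψ (k y)).comp (fderiv ℝ k y) :=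
      dvec_comp (f := Q.Ψ) (k := k) (q := y) (Q.hol _ hy.2.2).sm hkd
    have h6 : dvec E (Q.Ψ ∘ k) y v = 0 := h1
    rw [h5, ContinuousLinearMap.comp_apply] at h6
    have h7 : fderiv ℝ k y v = 0 := (Q.bij _ hy.2.2).1 (h6.trans (map_zero _).symm)
    have h8 : fderiv ℝ (fun q => (k q).2) y = (ContinuousLinearMap.snd ℝ F (Fin m → ℂ)).comp (fderiv ℝ k y) :=
      fderiv.snd hkd
    have h9 : fderiv ℝ (fun q => (k q).2) y = ContinuousLinearMap.snd ℝ G (Fin m → ℂ) := by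
      show fderiv ℝ (Prod.snd : G × (Fin m → ℂ) → (Fin m → ℂ)) y = _
      exact fderiv_snd
    have h10 := congrArg (fun L => L v) (h9.symm.trans h8)
    simpa [h7] using h10
  exact Prod.ext h3 h4

end Loc

theorem exists_fibre_product (M B Z : CM.{u}) (π : M.X → B.X) (m : ℕ) (hπ : FBN.Fibn M.E B.E π m)
    (f : Z.X → B.X) (hf : ContMDiff 𝓘(ℂ, Z.E) 𝓘(ℂ, B.E) ω f) :
    ∃ (P : CM.{u}) (p : P.X → M.X) (r : P.X → Z.X), ContMDiff 𝓘(ℂ, P.E) 𝓘(ℂ, M.E) ω p ∧
      ContMDiff 𝓘(ℂ, P.E) 𝓘(ℂ, Z.E) ω r ∧ (∀ x, π (p x) = f (r x)) ∧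
      (∀ a z, π a = f z → ∃ x, p x = a ∧ r x = z) ∧
      (∀ x (v : P.E), dmap P.E M.E p x v = 0 → dmap P.E Z.E r x v = 0 → v = 0) := by
  let c := cs hπ hf
  have := man hπ hf
  have : CompactSpace (FP π f) := FP.compact hπ.hol.continuous hf.continuous
  have : ConnectedSpace (FP π f) := FP.connected hπ.hol.continuous hf.continuous hπ.conn
  have hp : ContMDiff 𝓘(ℂ, Z.E × (Fin m → ℂ)) 𝓘(ℂ, M.E) ω (FP.fst : FP π f → M.X) :=
    contMDiff_of_hol fun p y hy => (fst_hol hπ hf p hy).1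
  have hr : ContMDiff 𝓘(ℂ, Z.E × (Fin m → ℂ)) 𝓘(ℂ, Z.E) ω (FP.snd : FP π f → Z.X) :=
    contMDiff_of_hol fun p y hy => (snd_hol hπ hf p hy).1
  refine ⟨{ E := Z.E × (Fin m → ℂ), X := FP π f }, FP.fst, FP.snd, hp, hr, fun x => x.eq,
    fun a z h => ⟨FP.mk a z h, rfl, rfl⟩, ?_⟩
  intro x v h1 h2
  have hy : (chartAt (Z.E × (Fin m → ℂ)) x) x ∈ (ph hπ hf x).target :=
    (ph hπ hf x).map_source (ph_mem hπ hf x)
  have h3 : dmap (Z.E × (Fin m → ℂ)) M.E (FP.fst : FP π f → M.X) x v = 0 := h1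
  have h4 : dmap (Z.E × (Fin m → ℂ)) Z.E (FP.snd : FP π f → Z.X) x v = 0 := h2
  rw [dmap_par] at h3 h4
  exact inj_loc hπ hf x hy v h3 h4

/-- If the base of a smooth fibration is in the class `C` and a closed real `(1,1)`-form on the total space
is positive on all fibres, then the total space is in the class `C`. -/
theorem total_fujiki (M B : CM.{u}) (π : M.X → B.X) (m : ℕ) (hπ : FBN.Fibn M.E B.E π m) (c : Form M.E M.X)
    (hc : ∀ x v, v ≠ 0 → dmap M.E B.E π x v = 0 → 0 < c.val x v (Complex.I • v)) (hB : Fujiki B) :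
    Fujiki M := by
  obtain ⟨Z, f, hZ, hf, hfs⟩ := hB
  obtain ⟨P, p, r, hp, hr, hpr, hs, hi⟩ := exists_fibre_product M B Z π m hπ f hf
  refine ⟨P, p, ?_, hp, ?_⟩
  · obtain ⟨c', hc'⟩ := exists_comap c hp
    refine fib_pos P Z r hr c' ?_ hZ
    intro x v hv hrv
    rw [hc', ContinuousLinearMap.bilinearComp_apply, dmap_I hp]
    apply hc
    · intro h0
      exact hv (hi x v h0 hrv)
    · have hpf : π ∘ p = f ∘ r := funext hpr
      have hg : Sm P.E (chartAt P.E x).symm (chartAt P.E x x) := (hol_symm (mem_chart_target P.E x)).sm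
      have h1 : dvec B.E (π ∘ (p ∘ (chartAt P.E x).symm)) (chartAt P.E x x) =
          dvec B.E (f ∘ (r ∘ (chartAt P.E x).symm)) (chartAt P.E x x) := by
        rw [← Function.comp_assoc, hpf, Function.comp_assoc]
      have hx : (chartAt P.E x).symm (chartAt P.E x x) = x := (chartAt P.E x).left_inv (mem_chart_source P.E x)
      rw [dvec_holo hπ.hol (sm_comp hp hg), dvec_holo hf (sm_comp hr hg), ← dmap_par, ← dmap_par] at h1
      simp only [Function.comp, hx] at h1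
      have h2 := congrArg (fun L => L v) h1
      simp only [ContinuousLinearMap.comp_apply, hrv, map_zero] at h2
      exact h2
  · intro a
    obtain ⟨z, hz⟩ := hfs (π a)
    obtain ⟨x, hx, -⟩ := hs a z hz.symm
    exact ⟨x, hx⟩

end Pool.Agent.FBP
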